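import Pool.Agent.H76.VC.HN2

/-!
# Splittings over virtually cyclic groups and the Farrell-Jones conjecture

Let `C` be a class of groups with the inheritance properties `Inherits` and `AcylExt`: if `p : G → Q` is onto, `Q` acts
acylindrically on a tree, and the preimages of the vertex stabilisers and of the virtually cyclic subgroups of `Q` are in `C`,
then `G` is in `C`. The class of the groups satisfying the Farrell-Jones conjecture for A-theory with coefficients and finite
wreath products is such a class (Knopf; Bunke, Kasprowski, Winges; Enkelmann, Lück, Pieper, Ullmann, Winges).

An element `z` of a group is balanced if `g z^m g⁻¹ = z^n` with `m, n ≠ 0` implies `|m| = |n|`.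

(a) Let `G` act on a tree such that the vertex stabilisers are in `C` and the edge stabilisers are virtually cyclic. Then `G`
is in `C` if and only if the commensurators of the unbalanced elements of infinite order of the edge stabilisers are in `C`.

(b) Let the groups `A i` in `C` have a common virtually cyclic subgroup `H`, the elements of infinite order of which are
balanced in all `A i`. Then the amalgamated product of the `A i` over `H` is in `C`. If the `A i` are balanced, then so is the
amalgamated product.

(c) The analogous statement on HNN extensions.

Proof of (a). The action need not be acylindrical: elements of infinite order of the edge stabilisers can fix large subtrees.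
We may assume that `G` is finitely generated and that there are finitely many orbits of edges, so that there is a bound on the
orders of the finite subgroups of the edge stabilisers. Two edges are equivalent if they are equal or if the intersection of
their stabilisers is infinite. The classes are subtrees, and the tree of cylinders (Guirardel, Levitt), in which every class is
replaced by the cone over its vertices, carries an action of `G` such that the stabiliser of a path of length 5 is contained
in the intersection of the stabilisers of two edges which are not equivalent, and this is a finite group of bounded order. By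
`AcylExt` we have to consider the stabiliser `S` of a class which contains an edge fixed by an element `z` of infinite order;
it is contained in the commensurator of `z`. If `z` is balanced then the elements of the commensurator which centralise a power
of `z` are a subgroup of index at most two, which is the directed union of the centralisers of the powers of `z`. So let `H` be
finitely generated and let `y` be a central element of infinite order of `H` which fixes a vertex. `H` acts on the tree of the
fixed points of `y`, and on a subtree of it with finitely many orbits of edges. The edge stabilisers of the group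
`Q = H / ⟨y⟩`, which acts on this subtree, are finite of bounded order; the preimage in `H` of the stabiliser of a vertex is the
stabiliser in `H`, and the preimage of a virtually cyclic group is virtually abelian. By `AcylExt` for `H → Q` the group `H` is in
`C`. (Nothing is known about the groups `Q_x` themselves.)
-/

set_option autoImplicit false

namespace Pool.Agent.Results.MP_2a547c_gt.CyclicSplittings

open Pool.Agent.H98.FJ Pool.Agent.H76.VC

theorem result (C : (G : Type) → [Group G] → Prop) (hC : Inherits C) (hA : AcylExt C) :
    (∀ (G V : Type) [Group G] [MulAction G V] (X : SimpleGraph V), X.IsTree →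
      (∀ (g : G) (v w : V), X.Adj v w → X.Adj (g • v) (g • w)) →
      (∀ v : V, C (MulAction.stabilizer G v)) →
      (∀ v w : V, X.Adj v w →
        VirtuallyCyclic (MulAction.stabilizer G v ⊓ MulAction.stabilizer G w : Subgroup G)) →
      (C G ↔ ∀ (z : G) (v w : V), X.Adj v w → z • v = v → z • w = w → ¬ IsOfFinOrder z →
        ¬ Bal z → C (Com z))) ∧
    (∀ (ι H : Type) (A : ι → Type) [∀ i, Group (A i)] [Group H] (φ : ∀ i, H →* A i),
      (∀ i, Function.Injective (φ i)) → VirtuallyCyclic H → (∀ i, C (A i)) →
      (∀ (i : ι) (h : H), ¬ IsOfFinOrder h → Bal (φ i h)) →
      C (Monoid.PushoutI φ) ∧ ((∀ i, BalG (A i)) → BalG (Monoid.PushoutI φ))) ∧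
    (∀ (H : Type) [Group H] (A B : Subgroup H) (φ : A ≃* B), C H → VirtuallyCyclic A →
      (∀ a : A, ¬ IsOfFinOrder a → Bal (a : H)) → (∀ b : B, ¬ IsOfFinOrder b → Bal (b : H)) →
      (∀ (a : A) (g : H) (m n : ℤ), ¬ IsOfFinOrder a → m ≠ 0 → n ≠ 0 →
        g * (φ a : H) ^ m * g⁻¹ = (a : H) ^ n → |m| = |n|) →
      C (HNNExtension H A B φ) ∧ (BalG H → BalG (HNNExtension H A B φ))) := by
  refine ⟨?_, ?_, ?_⟩
  · intro G V _ _ X hX hadj hv hE
    exact ⟨fun hG z _ _ _ _ _ _ _ => hC.sub G (Com z) hG,
      fun hz => main hC hA ⟨hX, hadj⟩ hv hE hz⟩
  · intro ι H A _ _ φ hφ hH hAi hb
    exact ⟨amalgam hC hA φ hφ hH hAi hb, fun h => amalgam_bal φ hφ hH h⟩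
  · intro H _ A B φ hH hVC ha hb hab
    exact ⟨hnn hC hA A B φ hH hVC ha hb hab, fun h => hnn_bal A B φ hVC h hab⟩

end Pool.Agent.Results.MP_2a547c_gt.CyclicSplittings
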